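import Mathlib
import Pool.Agent.Helper23.CC.Spec

/-!
# HZ: homogenisation
-/

set_option autoImplicit false

namespace Pool.Agent.Helper70.CC

open MvPolynomial Pool.Agent.Helper23.CC

theorem hz_add {K : Type} [Field K] (N d : ℕ) (f g : Polynomial K) :
    hz N d (f + g) = hz N d f + hz N d g := by
  simp only [hz, Polynomial.coeff_add, C_add, add_mul, Finset.sum_add_distrib]

theorem hz_zero {K : Type} [Field K] (N d : ℕ) : hz N d (0 : Polynomial K) = 0 := by
  simp [hz]

theorem hz_sum {K : Type} [Field K] (N d : ℕ) (σ : Type) (S : Finset σ) (f : σ → Polynomial K) :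
    hz N d (∑ s ∈ S, f s) = ∑ s ∈ S, hz N d (f s) := by
  let φ : Polynomial K →+ MvPolynomial (Fin (N + 2)) K :=
    { toFun := hz N d, map_zero' := hz_zero N d, map_add' := hz_add N d }
  exact map_sum φ f S

theorem hz_monomial {K : Type} [Field K] (N d i : ℕ) (h : i ≤ d) (a : K) :
    hz N d (Polynomial.monomial i a) = C a * X 0 ^ i * X 1 ^ (d - i) := by
  unfold hz
  rw [Finset.sum_eq_single i]
  · rw [Polynomial.coeff_monomial, if_pos rfl]
  · intro j _ hj
    rw [Polynomial.coeff_monomial, if_neg hj.symm, C_0, zero_mul, zero_mul]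
  · intro hi
    exact absurd (Finset.mem_range.2 (Nat.lt_succ_of_le h)) hi

theorem hz_mul {K : Type} [Field K] (N d e : ℕ) (f g : Polynomial K) (hf : f.natDegree ≤ d)
    (hg : g.natDegree ≤ e) : hz N (d + e) (f * g) = hz N d f * hz N e g := by
  have h1 : f * g = ∑ i ∈ Finset.range (d + 1), ∑ j ∈ Finset.range (e + 1),
      Polynomial.monomial (i + j) (f.coeff i * g.coeff j) := by
    conv_lhs => rw [f.as_sum_range' (d + 1) (Nat.lt_succ_of_le hf),
      g.as_sum_range' (e + 1) (Nat.lt_succ_of_le hg), Finset.sum_mul_sum]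
    refine Finset.sum_congr rfl fun i _ => Finset.sum_congr rfl fun j _ => ?_
    rw [Polynomial.monomial_mul_monomial]
  rw [h1, hz_sum]
  simp only [hz_sum]
  conv_rhs => rw [hz, hz, Finset.sum_mul_sum]
  refine Finset.sum_congr rfl fun i hi => Finset.sum_congr rfl fun j hj => ?_
  have hi' : i ≤ d := Nat.lt_succ_iff.1 (Finset.mem_range.1 hi)
  have hj' : j ≤ e := Nat.lt_succ_iff.1 (Finset.mem_range.1 hj)
  rw [hz_monomial N (d + e) (i + j) (by omega), C_mul, show d + e - (i + j) = (d - i) + (e - j) by omega]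
  ring

theorem hz_homog {K : Type} [Field K] (N d : ℕ) (f : Polynomial K) :
    (hz N d f).IsHomogeneous d := by
  unfold hz
  refine IsHomogeneous.sum _ _ _ fun i hi => ?_
  have hi' : i ≤ d := Nat.lt_succ_iff.1 (Finset.mem_range.1 hi)
  have h1 := ((isHomogeneous_C (Fin (N + 2)) (f.coeff i)).mul
    (isHomogeneous_X_pow (R := K) (0 : Fin (N + 2)) i)).mul
    (isHomogeneous_X_pow (R := K) (1 : Fin (N + 2)) (d - i))
  rwa [show 0 + i + (d - i) = d by omega] at h1

theorem hz_prod {K : Type} [Field K] (N : ℕ) (σ : Type) [DecidableEq σ] (S : Finset σ)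
    (f : σ → Polynomial K) (e : σ → ℕ) (h : ∀ s ∈ S, (f s).natDegree ≤ e s) :
    hz N (∑ s ∈ S, e s) (∏ s ∈ S, f s) = ∏ s ∈ S, hz N (e s) (f s) := by
  induction S using Finset.induction_on with
  | empty =>
    simp [hz]
  | insert a s ha ih =>
    rw [Finset.sum_insert ha, Finset.prod_insert ha, Finset.prod_insert ha, hz_mul N _ _ _ _
      (h a (Finset.mem_insert_self a s)), ih fun t ht => h t (Finset.mem_insert_of_mem ht)]
    exact (Polynomial.natDegree_prod_le s f).trans
      (Finset.sum_le_sum fun t ht => h t (Finset.mem_insert_of_mem ht))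

theorem hz' : St_HZ := by
  intro K _ N
  refine ⟨hz_add N, hz_mul N, ?_, ?_, hz_homog N, hz_prod N, hz_sum N⟩
  · intro a b
    simp [hz, lf, Finset.sum_range_succ, add_comm]
  · intro a
    simp [hz]

end Pool.Agent.Helper70.CC
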