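import Mathlib
import Pool.Agent.Helper23.CC.Spec
import Pool.Agent.Helper70.CC.HZ

/-!
# DEC: the decomposition of forms, and the cofactors
-/

set_option autoImplicit false

namespace Pool.Agent.Helper70.CC

open MvPolynomial Pool.Agent.Helper23.CC

/-- the decomposition -/
def PD {K : Type} [Field K] (N d : ℕ) (φ : MvPolynomial (Fin (N + 2)) K) : Prop :=
  ∃ (f : Polynomial K) (ψ : Fin N → MvPolynomial (Fin (N + 2)) K),
      f.natDegree ≤ d ∧ (∀ j, (ψ j).IsHomogeneous (d - 1)) ∧
      φ = hz N d f + ∑ j, X j.succ.succ * ψ j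

theorem PD_zero {K : Type} [Field K] (N d : ℕ) : PD N d (0 : MvPolynomial (Fin (N + 2)) K) :=
  ⟨0, fun _ => 0, by simp, fun _ => isHomogeneous_zero _ _ _, by simp [hz_zero]⟩

theorem PD_add {K : Type} [Field K] (N d : ℕ) (φ φ' : MvPolynomial (Fin (N + 2)) K)
    (h : PD N d φ) (h' : PD N d φ') : PD N d (φ + φ') := by
  obtain ⟨f, ψ, h1, h2, h3⟩ := h
  obtain ⟨f', ψ', h1', h2', h3'⟩ := h'
  refine ⟨f + f', fun j => ψ j + ψ' j, (Polynomial.natDegree_add_le _ _).trans (max_le h1 h1'),
    fun j => (h2 j).add (h2' j), ?_⟩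
  rw [h3, h3', hz_add]
  simp only [mul_add, Finset.sum_add_distrib]
  ring

theorem PD_monomial {K : Type} [Field K] (N d : ℕ) (I : Fin (N + 2) →₀ ℕ)
    (hI : I.degree = d) (c : K) : PD N d (monomial I c) := by
  classical
  by_cases h : ∃ j : Fin N, I j.succ.succ ≠ 0
  · obtain ⟨j, hj⟩ := h
    have h1 : Finsupp.single j.succ.succ 1 + (I - Finsupp.single j.succ.succ 1) = I :=
      add_tsub_cancel_of_le (by
        rw [Finsupp.single_le_iff]; omega)
    refine ⟨0, fun i => if i = j then monomial (I - Finsupp.single j.succ.succ 1) c else 0,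
      by simp, ?_, ?_⟩
    · intro i
      by_cases hi : i = j
      · simp only [hi, if_true]
        apply isHomogeneous_monomial
        have h2 := congrArg Finsupp.degree h1
        rw [map_add, Finsupp.degree_single, hI] at h2
        omega
      · simp only [hi, if_false]
        exact isHomogeneous_zero _ _ _
    · rw [hz_zero, zero_add, Finset.sum_eq_single j]
      · simp only [if_true]
        rw [X, monomial_mul, h1, one_mul]
      · intro i _ hi
        simp only [hi, if_false, mul_zero]
      · simp
  · push Not at h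
    have h2 : I 0 + I 1 = d := by
      rw [← hI, Finsupp.degree_eq_sum, Fin.sum_univ_succ, Fin.sum_univ_succ]
      simp [h]
    refine ⟨Polynomial.monomial (I 0) c, fun _ => 0, ?_, fun _ => isHomogeneous_zero _ _ _, ?_⟩
    · exact (Polynomial.natDegree_monomial_le c).trans (by omega)
    · rw [hz_monomial N d (I 0) (by omega), show d - I 0 = I 1 by omega, monomial_eq,
        Finsupp.prod_fintype _ _ (by simp), Fin.prod_univ_succ, Fin.prod_univ_succ]
      simp [h, mul_assoc]

theorem dec : St_DEC := by
  classical
  refine ⟨?_, ?_⟩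
  · intro K _ N d hd φ hφ
    have h1 : φ = ∑ I ∈ φ.support, monomial I (coeff I φ) := φ.as_sum
    have h2 : PD N d (∑ I ∈ φ.support, monomial I (coeff I φ)) := by
      refine Finset.sum_induction _ (PD N d) (PD_add N d) (PD_zero N d) ?_
      intro I hI
      have h3 := hφ (mem_support_iff.1 hI)
      refine PD_monomial N d I ?_ _
      rw [← h3, Finsupp.degree_eq_weight_one]
      rfl
    rw [← h1] at h2
    exact h2
  · intro K _ N A d ψ hψ
    refine ⟨fun x => coeff x.2.2 (ψ x.1 x.2.1), ?_⟩
    intro a j
    ext I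
    unfold cof
    rw [coeff_sum]
    simp only [coeff_monomial]
    by_cases hI : I.degree = d a - 1
    · rw [Finset.sum_eq_single I]
      · rw [if_pos rfl]
      · intro J _ hJ
        rw [if_neg hJ]
      · intro hn
        exact absurd (by
          rw [Finset.mem_finsuppAntidiag]
          exact ⟨by rw [← hI, Finsupp.degree_eq_sum], Finset.subset_univ _⟩) hn
    · have h0 : coeff I (ψ a j) = 0 := by
        by_contra hne
        apply hI
        rw [← hψ a j hne, Finsupp.degree_eq_weight_one]
        rfl
      rw [h0]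
      refine Finset.sum_eq_zero fun J hJ => ?_
      rw [if_neg]
      rintro rfl
      apply hI
      rw [Finset.mem_finsuppAntidiag] at hJ
      rw [← hJ.1, Finsupp.degree_eq_sum]

end Pool.Agent.Helper70.CC
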