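import Mathlib
import Pool.Agent.Helper23.CC.Spec

/-!
# JAC: the Jacobian criterion at one point, with dual numbers
-/

set_option autoImplicit false

namespace Pool.Agent.Helper70.CC

open MvPolynomial Pool.Agent.Helper23.CC

section

variable {σ F : Type} [Field F]

/-- Copied from `Pool.Agent.Y735.LE`. -/
theorem eq_C_of_pderiv [CharZero F] (P : MvPolynomial σ F) (h : ∀ i, pderiv i P = 0) :
    P = C (coeff 0 P) := by
  classical
  ext m
  rw [coeff_C]
  split_ifs with hm
  · rw [← hm]
  · by_contra hne
    obtain ⟨i, hi⟩ : ∃ i, m i ≠ 0 := by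
      by_contra hcon
      push Not at hcon
      exact hm (by ext i; simp [hcon i])
    have h1 : coeff (m - Finsupp.single i 1) (pderiv i P) = 0 := by rw [h i]; simp
    have h3 : m - (Finsupp.single i 1 : σ →₀ ℕ) + Finsupp.single i 1 = m :=
      tsub_add_cancel_of_le (by
        rw [Finsupp.single_le_iff]; omega)
    rw [coeff_pderiv, h3] at h1
    rcases mul_eq_zero.1 h1 with h4 | h4
    · exact hne h4
    · have : ((m i : ℕ) : F) ≠ 0 := by exact_mod_cast hi
      apply this
      have h5 : (m - (Finsupp.single i 1 : σ →₀ ℕ)) i + 1 = m i := by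
        simp; omega
      rw [← h5]; push_cast; exact h4

/-- Copied from `Pool.Agent.Y735.LE`. -/
theorem totalDegree_pderiv_lt (P : MvPolynomial σ F) (i : σ) (h : pderiv i P ≠ 0) :
    (pderiv i P).totalDegree < P.totalDegree := by
  classical
  have key : ∀ m ∈ (pderiv i P).support, (m.sum fun _ e => e) + 1 ≤ P.totalDegree := by
    intro m hm
    rw [mem_support_iff, coeff_pderiv] at hm
    have h1 : m + Finsupp.single i 1 ∈ P.support := by
      rw [mem_support_iff]
      intro h0
      rw [h0, zero_mul] at hm
      exact hm rfl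
    have h2 := le_totalDegree h1
    rw [Finsupp.sum_add_index' (by simp) (by simp)] at h2
    simpa using h2
  obtain ⟨m, hm, hm2⟩ := (totalDegree_eq (pderiv i P)).symm ▸
    Finset.exists_mem_eq_sup (pderiv i P).support (by
      rwa [Finset.nonempty_iff_ne_empty, Ne, support_eq_empty]) (fun m => m.toMultiset.card)
  have := key m hm
  rw [hm2, Finsupp.card_toMultiset]
  exact this

end

/-- the derivation in the direction `v` -/
noncomputable def Dv {K τ : Type} [Field K] (v : τ → K) :
    Derivation K (MvPolynomial τ K) (MvPolynomial τ K) :=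
  mkDerivation K (fun t => C (v t))

theorem fst_aeval {K τ : Type} [Field K] (x v : τ → K) (p : MvPolynomial τ K) :
    TrivSqZeroExt.fst (aeval (dual x v) p) = eval x p := by
  induction p using MvPolynomial.induction_on with
  | C c =>
    rw [aeval_C, eval_C]
    rfl
  | add p q hp hq => rw [map_add, TrivSqZeroExt.fst_add, hp, hq, map_add]
  | mul_X p i hp =>
    rw [map_mul, TrivSqZeroExt.fst_mul, hp, aeval_X, map_mul, eval_X]
    simp [dual]

theorem snd_aeval {K τ : Type} [Field K] (x v : τ → K) (p : MvPolynomial τ K) :
    TrivSqZeroExt.snd (aeval (dual x v) p) = eval x (Dv v p) := by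
  induction p using MvPolynomial.induction_on with
  | C c =>
    rw [aeval_C, show (C c : MvPolynomial τ K) = algebraMap K _ c from rfl,
      Derivation.map_algebraMap, map_zero]
    rfl
  | add p q hp hq => rw [map_add, TrivSqZeroExt.snd_add, hp, hq, map_add, map_add]
  | mul_X p i hp =>
    rw [map_mul, TrivSqZeroExt.snd_mul, hp, fst_aeval, aeval_X, Derivation.leibniz]
    simp [dual, Dv, mkDerivation_X, mul_comm]

theorem Dv_aeval {K ι τ : Type} [Field K] [Fintype ι] [DecidableEq ι]
    (Ψ : ι → MvPolynomial τ K) (v : τ → K) (f : MvPolynomial ι K) :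
    Dv v (aeval Ψ f) = ∑ i, aeval Ψ (pderiv i f) * Dv v (Ψ i) := by
  induction f using MvPolynomial.induction_on with
  | C c => simp [Dv, algebraMap_eq]
  | add p q hp hq =>
    simp only [map_add, add_mul, Finset.sum_add_distrib, hp, hq]
  | mul_X p j hp =>
    rw [map_mul, Derivation.leibniz, hp, aeval_X]
    simp only [Derivation.leibniz, map_add, smul_eq_mul, map_mul, aeval_X, add_mul,
      Finset.sum_add_distrib, pderiv_X, Finset.mul_sum]
    congr 1
    · rw [Finset.sum_eq_single j]
      · simp
      · intro b _ hb
        simp [hb.symm]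
      · simp
    · exact Finset.sum_congr rfl fun i _ => by ring

theorem jac : St_JAC := by
  classical
  intro K _ _ ι τ _ _ Ψ x v hv
  let M : Matrix ι ι (MvPolynomial τ K) := fun i' i => Dv (v i) (Ψ i')
  have hM : M.det ≠ 0 := by
    intro h0
    have h1 : eval x M.det = 1 := by
      rw [RingHom.map_det]
      have : (eval x).mapMatrix M = 1 := by
        ext i' i
        rw [RingHom.mapMatrix_apply, Matrix.map_apply, Matrix.one_apply]
        exact (snd_aeval x (v i) (Ψ i')).symm.trans (hv i i')
      rw [this, Matrix.det_one]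
    rw [h0, map_zero] at h1
    exact zero_ne_one h1
  rw [algebraicIndependent_iff]
  intro f
  induction hn : f.totalDegree using Nat.strong_induction_on generalizing f with
  | _ N ih =>
    intro hf
    have h0 : (fun i => aeval Ψ (pderiv i f)) = 0 := by
      apply Matrix.eq_zero_of_vecMul_eq_zero hM
      funext i
      have := Dv_aeval Ψ (v i) f
      rw [hf, map_zero] at this
      rw [Pi.zero_apply, this]
      rfl
    have h1 : ∀ k, pderiv k f = 0 := by
      intro k
      by_contra hne
      exact hne (ih _ (hn ▸ totalDegree_pderiv_lt f k hne) (pderiv k f) rfl (congrFun h0 k))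
    have h2 := eq_C_of_pderiv f h1
    rw [h2, aeval_C] at hf
    have h3 : coeff 0 f = 0 := by
      rw [algebraMap_eq] at hf
      exact C_eq_zero.1 hf
    rw [h2, h3, map_zero]

end Pool.Agent.Helper70.CC
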